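import Pool.Agent.W560.HP.Stm

/-!
# Base change of algebraically closed extensions
-/

set_option autoImplicit false
set_option linter.all false

namespace Pool.Agent.W21.HP

open W560.HP

theorem adj_le {A Ω : Type} [Field A] [Field Ω] [Algebra A Ω] (S : Set Ω) (L : Subfield Ω)
    (hA : ∀ a : A, algebraMap A Ω a ∈ L) (hS : S ⊆ L) :
    ∀ x ∈ IntermediateField.adjoin A S, x ∈ L := fun x hx =>
  (IntermediateField.adjoin_le_iff (F := A) (T := L.toIntermediateField hA)).2 hS hx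

theorem sup_le' {k Ω : Type} [Field k] [Field Ω] [Algebra k Ω] (F K : IntermediateField k Ω)
    (L : Subfield Ω) (hF : ∀ y ∈ F, y ∈ L) (hK : ∀ y ∈ K, y ∈ L) : ∀ y ∈ F ⊔ K, y ∈ L := by
  intro y hy
  have h1 : F ⊔ K ≤ L.toIntermediateField (fun a => hF _ (F.algebraMap_mem a)) :=
    sup_le hF hK
  exact h1 hy

theorem trans' {A K Ω : Type} [Field A] [Field K] [Field Ω] [Algebra A K] [Algebra K Ω]
    [Algebra A Ω] [IsScalarTower A K Ω] (h : ∀ y : K, IsAlgebraic A (algebraMap K Ω y)) {x : Ω}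
    (hx : IsAlgebraic K x) : IsAlgebraic A x := by
  have : Algebra.IsAlgebraic A K :=
    ⟨fun y => (isAlgebraic_algebraMap_iff (algebraMap K Ω).injective).1 (h y)⟩
  exact hx.restrictScalars A

theorem up' {A B Ω : Type} [Field A] [Field B] [Field Ω] [Algebra A B] [Algebra B Ω]
    [Algebra A Ω] [IsScalarTower A B Ω] {y : B} (h : IsAlgebraic A y) :
    IsAlgebraic A (algebraMap B Ω y) := h.algebraMap

/-- The second step, with abstract fields. -/
theorem step2 (h2 : S_BC2) {A B Ω : Type} [Field A] [CharZero A] [Field B] [Field Ω]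
    [Algebra A B] [Algebra B Ω] [Algebra A Ω] [IsScalarTower A B Ω] (S : Finset Ω)
    (K : Subfield Ω)
    (hAc : ∀ y : Ω, y ∈ Set.range (algebraMap B Ω) → IsAlgebraic A y →
      y ∈ Set.range (algebraMap A Ω))
    (hS : ∀ s ∈ S, IsAlgebraic A s) (hAK : ∀ a : A, algebraMap A Ω a ∈ K)
    (hSK : ∀ s ∈ S, s ∈ K) {x : Ω} (hxA : IsAlgebraic A x)
    (hx : x ∈ IntermediateField.adjoin B (S : Set Ω)) : x ∈ K := by
  refine adj_le _ K hAK hSK x (h2 A B Ω S ?_ hS x hx hxA)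
  intro y hy
  obtain ⟨a, ha⟩ := hAc _ ⟨y, rfl⟩ (up' hy)
  refine ⟨a, (algebraMap B Ω).injective ?_⟩
  rw [← IsScalarTower.algebraMap_apply, ha]

/-- The first step, with abstract fields. -/
theorem step1 (h1 : S_BC1) {A B Ω : Type} [Field A] [CharZero A] [Field B] [Field Ω]
    [Algebra A B] [Algebra B Ω] [Algebra A Ω] [IsScalarTower A B Ω] (T : Finset Ω)
    (hAc : ∀ y : Ω, y ∈ Set.range (algebraMap B Ω) → IsAlgebraic A y →
      y ∈ Set.range (algebraMap A Ω))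
    (hind : AlgebraicIndependent B (fun x : T => (x : Ω))) {x : Ω}
    (hx : x ∈ IntermediateField.adjoin B (T : Set Ω))
    (hxA : IsAlgebraic (IntermediateField.adjoin A (T : Set Ω)) x) :
    x ∈ IntermediateField.adjoin A (T : Set Ω) := by
  have hT : Set.range (fun x : T => (x : Ω)) = (T : Set Ω) := by
    ext y
    simp
  have e1 := h1 A B Ω T (fun x : T => (x : Ω)) (by
    intro y hy
    obtain ⟨a, ha⟩ := hAc _ ⟨y, rfl⟩ (up' hy)
    refine ⟨a, (algebraMap B Ω).injective ?_⟩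
    rw [← IsScalarTower.algebraMap_apply, ha]) hind
  rw [hT] at e1
  exact e1 x hx hxA

/-- The inclusion. -/
def incl {K₀ F₀ Ω : Type} [Field K₀] [Field F₀] [Field Ω] [Algebra K₀ Ω] [Algebra F₀ Ω]
    (A : IntermediateField K₀ Ω) (B : IntermediateField F₀ Ω) (hAB : ∀ y ∈ A, y ∈ B) : A →+* B where
  toFun y := ⟨y.1, hAB y.1 y.2⟩
  map_one' := rfl
  map_zero' := rfl
  map_mul' := fun _ _ => rfl
  map_add' := fun _ _ => rfl

theorem step2' (h2 : S_BC2) {K₀ F₀ Ω : Type} [Field K₀] [CharZero K₀] [Field F₀] [Field Ω]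
    [Algebra K₀ Ω] [Algebra F₀ Ω] (A : IntermediateField K₀ Ω) (B : IntermediateField F₀ Ω)
    (hAB : ∀ y ∈ A, y ∈ B) (S : Finset Ω) (K : Subfield Ω)
    (hAc : ∀ y ∈ B, IsAlgebraic A y → y ∈ A)
    (hS : ∀ s ∈ S, IsAlgebraic A s) (hAK : ∀ a ∈ A, a ∈ K)
    (hSK : ∀ s ∈ S, s ∈ K) {x : Ω} (hxA : IsAlgebraic A x)
    (hx : x ∈ IntermediateField.adjoin B (S : Set Ω)) : x ∈ K := by
  have hcA : CharZero A := charZero_of_injective_algebraMap (algebraMap K₀ A).injective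
  letI a2 : Algebra A B := (incl A B hAB).toAlgebra
  haveI t2 : IsScalarTower A B Ω := IsScalarTower.of_algebraMap_eq fun _ => rfl
  refine step2 h2 S K ?_ hS ?_ hSK hxA hx
  · rintro y ⟨b, rfl⟩ hy
    exact ⟨⟨_, hAc _ b.2 hy⟩, rfl⟩
  · intro a
    exact hAK a a.2

theorem transS {K₀ k Ω : Type} [Field K₀] [Field k] [Field Ω] [Algebra K₀ Ω] [Algebra k Ω]
    (A : IntermediateField K₀ Ω) (K : IntermediateField k Ω) (hAK : ∀ y ∈ A, y ∈ K)
    (h : ∀ y ∈ K, IsAlgebraic A y) {x : Ω} (hx : IsAlgebraic K x) : IsAlgebraic A x := by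
  letI a2 : Algebra A K := (incl A K hAK).toAlgebra
  haveI t2 : IsScalarTower A K Ω := IsScalarTower.of_algebraMap_eq fun _ => rfl
  exact trans' (K := K) (fun y => h _ y.2) hx

theorem step1' (h1 : S_BC1) {k Ω : Type} [Field k] [CharZero k] [Field Ω] [Algebra k Ω]
    (K₀ F₀ : IntermediateField k Ω) (hKF : K₀ ≤ F₀) (T : Finset Ω)
    (hAc : ∀ y ∈ F₀, IsAlgebraic K₀ y → y ∈ K₀)
    (hind : AlgebraicIndependent F₀ (fun x : T => (x : Ω))) {x : Ω}
    (hx : x ∈ IntermediateField.adjoin F₀ (T : Set Ω))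
    (hxA : IsAlgebraic (IntermediateField.adjoin K₀ (T : Set Ω)) x) :
    x ∈ IntermediateField.adjoin K₀ (T : Set Ω) := by
  have hcA : CharZero K₀ := charZero_of_injective_algebraMap (algebraMap k K₀).injective
  letI a2 : Algebra K₀ F₀ := (incl K₀ F₀ hKF).toAlgebra
  haveI t2 : IsScalarTower K₀ F₀ Ω := IsScalarTower.of_algebraMap_eq fun _ => rfl
  refine step1 h1 T ?_ hind hx hxA
  rintro y ⟨b, rfl⟩ hy
  exact ⟨⟨_, hAc _ b.2 hy⟩, rfl⟩

theorem bc (h1 : S_BC1) (h2 : S_BC2) : S_BC := by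
  intro k Ω _ _ _ _ K₀ F₀ K hKF hK hcl ⟨S, hS⟩ ⟨T, hTK, hind, halg⟩ x hx hxK
  have hcA : CharZero K₀ := charZero_of_injective_algebraMap (algebraMap k K₀).injective
  have e1 : ∀ y ∈ IntermediateField.adjoin F₀ (T : Set Ω),
      IsAlgebraic (IntermediateField.adjoin K₀ (T : Set Ω)) y →
      y ∈ IntermediateField.adjoin K₀ (T : Set Ω) := fun y hy hy' =>
    step1' h1 K₀ F₀ hKF T hcl hind hy hy'
  have hTB : ∀ y ∈ (T : Set Ω), y ∈ IntermediateField.adjoin F₀ (T : Set Ω) := fun y hy =>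
    IntermediateField.subset_adjoin F₀ (T : Set Ω) hy
  have hFB : ∀ y ∈ F₀, y ∈ IntermediateField.adjoin F₀ (T : Set Ω) := fun y hy =>
    (IntermediateField.adjoin F₀ (T : Set Ω)).algebraMap_mem ⟨y, hy⟩
  generalize IntermediateField.adjoin F₀ (T : Set Ω) = B at e1 hTB hFB
  have hAB : ∀ y ∈ IntermediateField.adjoin K₀ (T : Set Ω), y ∈ B :=
    adj_le _ B.toSubfield (fun a => hFB _ (hKF a.2)) hTB
  have hAK : ∀ y ∈ IntermediateField.adjoin K₀ (T : Set Ω), y ∈ K :=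
    adj_le _ K.toSubfield (fun a => hK a.2) hTK
  generalize IntermediateField.adjoin K₀ (T : Set Ω) = A at e1 hAB hAK halg
  have hSK : ∀ s ∈ S, s ∈ K := by
    intro s hs
    rw [hS]
    have h3 : s ∈ IntermediateField.adjoin k (S : Set Ω) :=
      IntermediateField.subset_adjoin k (S : Set Ω) hs
    exact (le_sup_right : _ ≤ K₀ ⊔ IntermediateField.adjoin k (S : Set Ω)) h3
  have hxA : IsAlgebraic A x := transS A K hAK halg hxK
  refine step2' h2 A B hAB S K.toSubfield e1 (fun s hs => halg s (hSK s hs)) hAK hSK hxA ?_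
  have hBB : ∀ y ∈ B, y ∈ IntermediateField.adjoin B (S : Set Ω) := fun y hy =>
    (IntermediateField.adjoin B (S : Set Ω)).algebraMap_mem ⟨y, hy⟩
  have hSB : ∀ y ∈ (S : Set Ω), y ∈ IntermediateField.adjoin B (S : Set Ω) := fun y hy =>
    IntermediateField.subset_adjoin B (S : Set Ω) hy
  generalize IntermediateField.adjoin B (S : Set Ω) = C at hBB hSB
  refine sup_le' F₀ K C.toSubfield (fun y hy => hBB y (hFB y hy)) ?_ x hx
  rw [hS]
  refine sup_le' _ _ C.toSubfield (fun y hy => hBB y (hFB y (hKF hy))) ?_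
  exact adj_le _ C.toSubfield (fun a => hBB _ (hFB _ (F₀.algebraMap_mem a))) hSB

end Pool.Agent.W21.HP
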